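import Pool.Agent.Run7.h235.OB.Hull

/-!
# MP_7a9089_an: outer billiards whose whole exterior is foliated by invariant curves

`γ = (a, b)` is a smooth closed strictly convex curve (`ConvexCurve`; points of zero curvature are
allowed), `K` the closed convex domain bounded by it (`Domain`), `E` the complement of `K`
(`Exterior`), and `T : E → E` the outer billiard map (`Outer a b z z'` says `z' = T z`).
`ClosedFoliation E Φ` says that `E` is foliated, in the `C¹` sense, by the closed curves
`t ↦ Φ (r, t)`, `r ∈ ℝ`.  If every leaf is invariant under `T`, then `γ` is an ellipse.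

Nothing else is assumed about the leaves: they need not be convex, nor graphs over `γ`.

Proof.
* `Pool/Agent/Run7/h235/OB/Flat`: the label of the leaves has equal values at `p + s v` and
  `p - s v`, `v` tangent to `γ` at `p`.  At a point `p` of zero curvature the derivatives of this
  identity with respect to `s` and `p` show that the label is constant along the half tangent, but
  the leaves are bounded.  So the curvature is positive.
* `OB/Lift`: the foliation is lifted to the tangential coordinates `(x, s)`, `s > 0`, of the point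
  `γ x + s γ' x` (covering spaces), and its leaves wind once around `γ`.
* `OB/Chart`, `OB/Slide`: `T` preserves the area, hence a measure with a continuous positive
  density on each leaf, and is conjugate to a rotation on the leaf.  Sliding the leaf along itself
  and using the twist of `T` one finds that `x` is monotone on the leaves (Birkhoff's theorem for
  the leaves of a foliation): each leaf meets each half tangent in one point.
* `AE/Main`, `AE/Final`: the leaves and the line at infinity (parallel tangents) form a foliation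
  of the whole exterior in the projective plane by smooth and regular curves near the line at
  infinity, and the starting theorem `WholeExteriorRigidity` of MP_ae5b4e_an shows that `γ` is an
  ellipse.
-/

set_option autoImplicit false

open Filter Topology Set Real
open scoped ContDiff

namespace Pool.Agent.Results.MP_7a9089_an.InvariantFoliation

open Pool.Agent.Run7.h235.OB

/-- `x ↦ (a x, b x)` is a smooth closed strictly convex curve: it is regular and stays strictly on
the left of each of its tangent lines.  The curvature may have zeros. -/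
structure ConvexCurve (a b : ℝ → ℝ) : Prop where
  smooth₁ : ContDiff ℝ ∞ a
  smooth₂ : ContDiff ℝ ∞ b
  per₁ : ∀ x, a (x + 2 * π) = a x
  per₂ : ∀ x, b (x + 2 * π) = b x
  regular : ∀ x, deriv a x ≠ 0 ∨ deriv b x ≠ 0
  convex : ∀ x x', x < x' → x' < x + 2 * π →
    0 < deriv a x * (b x' - b x) - deriv b x * (a x' - a x)

/-- the closed convex domain bounded by the curve: the points which lie on the left of, or on, all
tangent lines -/
def Domain (a b : ℝ → ℝ) : Set (ℝ × ℝ) :=
  {z | ∀ x, 0 ≤ deriv a x * (z.2 - b x) - deriv b x * (z.1 - a x)}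

/-- the exterior of the curve -/
def Exterior (a b : ℝ → ℝ) : Set (ℝ × ℝ) := (Domain a b)ᶜ

/-- `z' = T z` for the outer billiard map `T`: the tangent line through `z`, oriented from `z` to
the point of tangency `(a x, b x)`, has the curve on its left, and `z'` is the reflection of `z` in
`(a x, b x)` -/
def Outer (a b : ℝ → ℝ) (z z' : ℝ × ℝ) : Prop :=
  ∃ x s, 0 < s ∧ z = (a x - s * deriv a x, b x - s * deriv b x) ∧
    z' = (a x + s * deriv a x, b x + s * deriv b x)

/-- the set `C` is invariant, `T C = C` (`T` is a bijection of the exterior) -/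
def Invariant (a b : ℝ → ℝ) (C : Set (ℝ × ℝ)) : Prop :=
  ∀ z z', Outer a b z z' → (z ∈ C ↔ z' ∈ C)

/-- `Φ` is a `C¹` foliation of `E` by closed curves: a `C¹` diffeomorphism of the annulus
`ℝ × (ℝ / ℤ)` onto `E`, whose leaves are the curves `t ↦ Φ (r, t)` -/
structure ClosedFoliation (E : Set (ℝ × ℝ)) (Φ : ℝ × ℝ → ℝ × ℝ) : Prop where
  smooth : ContDiff ℝ 1 Φ
  regular : ∀ p v, fderiv ℝ Φ p v = 0 → v = 0
  closed : ∀ r t, Φ (r, t + 1) = Φ (r, t)
  disjoint : ∀ r t r' t', Φ (r, t) = Φ (r', t') → r = r' ∧ ∃ k : ℤ, t' = t + k
  fills : Set.range Φ = E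

/-- the leaf with the parameter `r` -/
def leaf (Φ : ℝ × ℝ → ℝ × ℝ) (r : ℝ) : Set (ℝ × ℝ) := Set.range fun t => Φ (r, t)

/-- **Theorem.** If the exterior of a smooth closed strictly convex curve is foliated by closed
curves which are invariant under the outer billiard map, then the curve is an ellipse. -/
theorem result {a b : ℝ → ℝ} (h : ConvexCurve a b) {Φ : ℝ × ℝ → ℝ × ℝ}
    (hΦ : ClosedFoliation (Exterior a b) Φ) (hT : ∀ r, Invariant a b (leaf Φ r)) :
    ∃ x₀ y₀ A B C : ℝ, 0 < A ∧ B ^ 2 < A * C ∧ ∀ x y : ℝ,
      A * (x - x₀) ^ 2 + 2 * B * (x - x₀) * (y - y₀) + C * (y - y₀) ^ 2 = 1 ↔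
        ∃ u, a u = x ∧ b u = y := by
  have hw : WCurve a b := ⟨h.smooth₁, h.smooth₂, h.per₁, h.per₂, h.regular, h.convex⟩
  have hE : Exterior a b = Out a b := by
    ext z
    constructor
    · intro hz
      by_contra hcon
      apply hz
      intro x
      by_contra hx
      exact hcon ⟨x, not_le.mp hx⟩
    · rintro ⟨x, hx⟩ hz
      exact absurd (hz x) (not_le.mpr hx)
  have hP : PFol (Out a b) Φ := by
    rw [← hE]
    exact ⟨hΦ.smooth, hΦ.regular, hΦ.closed, hΦ.disjoint, hΦ.fills⟩
  obtain ⟨x₀, y₀, A, B, C, h1, h2, h3⟩ := plane_ellipse hw hP (by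
    intro r x s hs
    have h4 := hT r (a x - s * deriv a x, b x - s * deriv b x)
      (a x + s * deriv a x, b x + s * deriv b x) ⟨x, s, hs, rfl, rfl⟩
    have e : Pool.Agent.Run7.h235.AE.tp a b x (-s) =
        (a x - s * deriv a x, b x - s * deriv b x) := by
      unfold Pool.Agent.Run7.h235.AE.tp
      refine Prod.ext ?_ ?_
      · simp only
        ring
      · simp only
        ring
    rw [e]
    constructor
    · rintro ⟨t, ht⟩
      obtain ⟨t', ht'⟩ := h4.mp ⟨t, ht.symm⟩
      exact ⟨t', ht'.symm⟩
    · rintro ⟨t, ht⟩
      obtain ⟨t', ht'⟩ := h4.mpr ⟨t, ht.symm⟩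
      exact ⟨t', ht'.symm⟩)
  refine ⟨x₀, y₀, A, B, C, h1, h2, fun x y => ?_⟩
  have h4 := h3 (x, y)
  unfold Pool.Agent.Run7.h235.AE.qd at h4
  simp only [Prod.mk.injEq] at h4
  rw [h4]
  constructor
  · rintro ⟨u, h5, h6⟩
    exact ⟨u, h5.symm, h6.symm⟩
  · rintro ⟨u, h5, h6⟩
    exact ⟨u, h5.symm, h6.symm⟩

end Pool.Agent.Results.MP_7a9089_an.InvariantFoliation
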